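import Pool.Agent.H16.GPS.Rel.Main
import Pool.Agent.H16.GPS.Rel.Laws

/-!
GPR (MP_a1f59e_nt): the relative theorem with ring multipliers. `R` is a commutative ring, `Γ` a finite `R`-module,
`c : Fin κ → R`; the configurations are `x + c j • d`, `j : Fin κ`.
-/

set_option autoImplicit false

open Finset

namespace Pool.Agent.H16.GPR

open Pool.Agent.H16.GPS

/-- `LL c j h = ∑ i, (c j - c i) • h i` -/
def LL {κ : ℕ} {R Γ : Type} [CommRing R] [AddCommGroup Γ] [Module R Γ] (c : Fin κ → R) (j : Fin κ)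
    (h : Fin κ → Γ) : Γ := ∑ i : Fin κ, (c j - c i) • h i

/-- the counting functional: `E_{(A,x)} E_h ∏ j, g (A, x + LL c j h)` -/
noncomputable def Lam {Θ R Γ : Type} [Fintype Θ] [Fintype Γ] [CommRing R] [AddCommGroup Γ]
    [Module R Γ] {κ : ℕ} (c : Fin κ → R) (lam : Γ → ℝ) (g : Θ × Γ → ℝ) : ℝ :=
  EE (unif (Θ × Γ)) lam (fun p (h : Fin κ → Γ) => ∏ j : Fin κ, g (p.1, p.2 + LL c j h))

/-- linear forms condition for `ν` -/
def LFnu {Θ R Γ : Type} [Fintype Θ] [Fintype Γ] [CommRing R] [AddCommGroup Γ] [Module R Γ] {κ : ℕ}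
    (c : Fin κ → R) (lam : Γ → ℝ) (ν : Θ × Γ → ℝ) (η : ℝ) : Prop :=
  LFc (unif (Θ × Γ)) lam (fun (j : Fin κ) p h => ν (p.1, p.2 + LL c j h)) η

/-- linear forms condition for the cubes `z + D ∑ c, y c` -/
def LFd {Θ R Γ : Type} [Fintype Θ] [Fintype Γ] [CommRing R] [AddCommGroup Γ] [Module R Γ] (κ : ℕ)
    (D : R) (lam' : Γ → ℝ) (ν : Θ × Γ → ℝ) (η : ℝ) : Prop :=
  ∀ S : Finset (Finset (Fin κ)),
    |EE2 (unif (Θ × Γ)) lam' (fun p y y' => ∏ ω ∈ S,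
      ν (p.1, p.2 + D • ∑ c : Fin κ, mix y y' ω c)) - 1| ≤ η

/-- `lam` is nearly invariant under the shifts by `q j i • y`, `y` in the support of `lam'` -/
def NearInv {R Γ : Type} [Fintype Γ] [CommRing R] [AddCommGroup Γ] [Module R Γ] {κ : ℕ}
    (q : Fin κ → Fin κ → R) (lam lam' : Γ → ℝ) (τ : ℝ) : Prop :=
  ∀ y : Γ, lam' y ≠ 0 → ∀ j i : Fin κ, i ≠ j → ∑ g, |lam (g + q j i • y) - lam g| ≤ τ

/-- test functions for the dense model -/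
def TestFn {Θ R Γ : Type} [Fintype Θ] [Fintype Γ] [CommRing R] [AddCommGroup Γ] [Module R Γ] {κ : ℕ}
    (c : Fin κ → R) (lam : Γ → ℝ) : Set (Θ × Γ → ℝ) :=
  {φ | (φ = fun _ => 1) ∨ ∃ (j : Fin κ) (u : Fin κ → Θ × Γ → (Fin κ → Γ) → ℝ),
    (∀ i p, Indep i (u i p)) ∧ (∀ i p h, 0 ≤ u i p h ∧ u i p h ≤ 1) ∧
    ∀ p, φ p = ∑ h : Fin κ → Γ, (∏ i, lam (h i)) *
      ∏ i ∈ univ.erase j, u i (p.1, p.2 - LL c j h) h}

end Pool.Agent.H16.GPR
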