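import Pool.Agent.H16.GPR.Sub

/-!
GPR: the relative Szemerédi theorem for the configurations `x + c j • d`, `d` in a subgroup of a finite `R`-module.

`c₁` and `η` depend only on `κ`, `δ`. `D` is a common multiple of the differences `c j - c i` (quotients `q j i`), `G₀`, `G₁`
are subgroups of `Γ` with `q j i • G₁ ⊆ G₀`. In `F_q[t]`: `R = F_q[X]`, `Γ = R ⧸ (X ^ N)`, `G₀`, `G₁` = classes of the
polynomials of degree `< N - a`, `< N - b`.
-/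

set_option autoImplicit false

open Finset

namespace Pool.Agent.H16.GPR

open Pool.Agent.H16.GPS hiding LL Lam LFnu LFd NearInv TestFn rel_main

/-- the count of the configurations `x + c j • d` as an average -/
lemma Lam_sub {Θ R Γ : Type} [Fintype Θ] [Fintype Γ] [CommRing R] [AddCommGroup Γ] [Module R Γ]
    {κ : ℕ} (hκ : 1 ≤ κ) (c : Fin κ → R) (G₀ : AddSubgroup Γ) (f : Θ × Γ → ℝ) :
    Lam c (uS G₀) f = ∑ p : Θ × Γ, unif (Θ × Γ) p *
      ∑ d : Γ, uS G₀ d * ∏ j : Fin κ, f (p.1, p.2 + c j • d) := by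
  classical
  unfold Lam EE
  have hLL : ∀ (j : Fin κ) (h : Fin κ → Γ),
      LL c j h = -(∑ i : Fin κ, c i • h i) + c j • ∑ i : Fin κ, h i := by
    intro j h
    unfold LL
    rw [Finset.smul_sum, ← Finset.sum_neg_distrib, ← Finset.sum_add_distrib]
    refine Finset.sum_congr rfl (fun i _ => ?_)
    rw [sub_smul]
    abel
  -- exchange the sums
  have e1 : ∑ p : Θ × Γ, unif (Θ × Γ) p * ∑ h : Fin κ → Γ, (∏ i, uS G₀ (h i)) *
      ∏ j : Fin κ, f (p.1, p.2 + LL c j h) =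
      ∑ h : Fin κ → Γ, (∏ i, uS G₀ (h i)) * ∑ p : Θ × Γ, unif (Θ × Γ) p *
        ∏ j : Fin κ, f (p.1, p.2 + LL c j h) := by
    simp only [Finset.mul_sum]
    rw [Finset.sum_comm]
    refine Finset.sum_congr rfl fun h _ => Finset.sum_congr rfl fun p _ => by ring
  have e2 : ∀ h : Fin κ → Γ, ∑ p : Θ × Γ, unif (Θ × Γ) p * ∏ j : Fin κ, f (p.1, p.2 + LL c j h) =
      ∑ p : Θ × Γ, unif (Θ × Γ) p * ∏ j : Fin κ, f (p.1, p.2 + c j • ∑ i, h i) := by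
    intro h
    have h1 := Equiv.sum_comp ((Equiv.refl Θ).prodCongr (Equiv.addRight (-(∑ i : Fin κ, c i • h i))))
      (fun p => unif (Θ × Γ) p * ∏ j : Fin κ, f (p.1, p.2 + c j • ∑ i, h i))
    rw [← h1]
    refine Finset.sum_congr rfl fun p _ => ?_
    simp only [Equiv.prodCongr_apply, Equiv.coe_refl, Prod.map_fst, id_eq, Prod.map_snd,
      Equiv.coe_addRight]
    congr 1
    refine Finset.prod_congr rfl fun j _ => ?_
    rw [hLL, add_assoc]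
  rw [e1, Finset.sum_congr rfl (fun h _ => by rw [e2 h])]
  rw [uS_sum G₀ hκ (fun d => ∑ p : Θ × Γ, unif (Θ × Γ) p * ∏ j : Fin κ, f (p.1, p.2 + c j • d))]
  simp only [Finset.mul_sum]
  rw [Finset.sum_comm]
  refine Finset.sum_congr rfl fun h _ => Finset.sum_congr rfl fun p _ => by ring

theorem rel_ring (κ : ℕ) (hκ : 2 ≤ κ) (δ : ℝ) (hδ : 0 < δ) :
    ∃ c₁ : ℝ, 0 < c₁ ∧ ∃ η : ℝ, 0 < η ∧
    ∀ (Θ R Γ : Type) [Fintype Θ] [Nonempty Θ] [Fintype Γ] [CommRing R] [AddCommGroup Γ]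
      [Module R Γ] (c : Fin κ → R) (D : R) (q : Fin κ → Fin κ → R),
    (∀ j i : Fin κ, i ≠ j → (c j - c i) * q j i = D) →
    ∀ G₀ G₁ : AddSubgroup Γ, (∀ j i : Fin κ, i ≠ j → ∀ y ∈ G₁, q j i • y ∈ G₀) →
    ∀ ν f : Θ × Γ → ℝ, LFnu c (uS G₀) ν η → LFd κ D (uS G₁) ν η →
    (∀ p, 0 ≤ f p ∧ f p ≤ ν p) → δ ≤ ∑ p, unif (Θ × Γ) p * f p →
    c₁ ≤ ∑ p : Θ × Γ, unif (Θ × Γ) p *
      ∑ d : Γ, uS G₀ d * ∏ j : Fin κ, f (p.1, p.2 + c j • d) := by
  classical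
  obtain ⟨n, hn, c₁, hc₁, hdense⟩ := dense_prop κ (by omega) (dhj κ (by omega)) (δ / 2)
    (by positivity)
  obtain ⟨η, hη, τ, hτ, hrel⟩ := rel_main κ hκ δ c₁ hδ hc₁
  refine ⟨c₁ / 2, by positivity, η, hη, ?_⟩
  intro Θ R Γ _ _ _ _ _ _ c D q hq G₀ G₁ hG ν f hLF hLFd hf hδf
  rw [← Lam_sub (by omega) c G₀ f]
  have hne : Nonempty G₀ := ⟨0⟩
  refine hrel Θ R Γ c D q hq (uS G₀) (uS G₁) (uS_isPW G₀) (uS_isPW G₁) ν f hLF hLFd ?_ ?_ hf hδf
  · intro y hy j i hij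
    have hy1 : q j i • y ∈ G₀ := hG j i hij y (uS_mem G₁ hy)
    rw [Finset.sum_eq_zero (fun g _ => ?_)]
    · exact hτ.le
    · rw [uS_add G₀ hy1, sub_self, abs_zero]
  · intro g hg hg2
    have h1 := hdense Θ R Γ G₀ c (fun y : G₀ => (y : Γ)) g hg hg2
    have h2 : lawN n (fun y : G₀ => (y : Γ)) = uS G₀ := by
      funext x
      exact lawN_sub G₀ n hn x
    rw [h2] at h1
    exact h1

end Pool.Agent.H16.GPR
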