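import Pool.Agent.H16.GPR.Main
import Pool.Agent.H16.GPR.Dense

/-!
GPR: the relative theorem for the configurations `x + c j • d` with `d` in a subgroup (ring multipliers).
-/

set_option autoImplicit false

open Finset

namespace Pool.Agent.H16.GPR

open Pool.Agent.H16.GPS hiding LL Lam LFnu LFd NearInv TestFn rel_main

open Classical in
/-- the uniform weight on a subgroup -/
noncomputable def uS {Γ : Type} [Fintype Γ] [AddCommGroup Γ] (G₀ : AddSubgroup Γ) (g : Γ) : ℝ :=
  if g ∈ G₀ then 1 / (Nat.card G₀ : ℝ) else 0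

section
variable {Γ : Type} [Fintype Γ] [AddCommGroup Γ] (G₀ : AddSubgroup Γ)

lemma uS_card_pos : (0 : ℝ) < (Nat.card G₀ : ℝ) := by
  have : Finite G₀ := inferInstance
  exact_mod_cast Nat.card_pos

lemma uS_nonneg (g : Γ) : 0 ≤ uS G₀ g := by
  unfold uS
  split_ifs
  · have := uS_card_pos G₀
    positivity
  · exact le_rfl

lemma uS_mem {g : Γ} (h : uS G₀ g ≠ 0) : g ∈ G₀ := by
  by_contra hg
  exact h (by unfold uS; rw [if_neg hg])

lemma uS_add {y : Γ} (hy : y ∈ G₀) (g : Γ) : uS G₀ (g + y) = uS G₀ g := by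
  unfold uS
  have h : g + y ∈ G₀ ↔ g ∈ G₀ := AddSubgroup.add_mem_cancel_right G₀ hy
  by_cases hg : g ∈ G₀
  · rw [if_pos hg, if_pos (h.mpr hg)]
  · rw [if_neg hg, if_neg (fun hh => hg (h.mp hh))]

lemma uS_isPW : IsPW (uS G₀) := by
  classical
  refine ⟨uS_nonneg G₀, ?_⟩
  unfold uS
  rw [← Finset.sum_filter, Finset.sum_const, nsmul_eq_mul]
  have h : #(univ.filter (fun g : Γ => g ∈ G₀)) = Nat.card G₀ := by
    rw [Nat.card_eq_fintype_card, Fintype.card_subtype]
  have h2 := uS_card_pos G₀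
  have h3 : ((#(univ.filter (fun g : Γ => g ∈ G₀)) : ℕ) : ℝ) = (Nat.card G₀ : ℝ) := by
    rw [h]
  rw [h3]
  field_simp

/-- translation invariance of the average over the subgroup -/
lemma uS_trans {y : Γ} (hy : y ∈ G₀) (F : Γ → ℝ) :
    ∑ g, uS G₀ g * F (g + y) = ∑ g, uS G₀ g * F g := by
  have h := Equiv.sum_comp (Equiv.addRight y) (fun g => uS G₀ g * F g)
  rw [← h]
  apply Finset.sum_congr rfl
  intro g _
  simp only [Equiv.coe_addRight]
  rw [uS_add G₀ hy]

/-- the law of a sum of independent uniform elements of a subgroup -/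
lemma uS_sum {κ : ℕ} (hκ : 1 ≤ κ) (F : Γ → ℝ) :
    ∑ h : Fin κ → Γ, (∏ i, uS G₀ (h i)) * F (∑ i, h i) = ∑ d, uS G₀ d * F d := by
  classical
  have hl := uS_isPW G₀
  rw [sum_pi_update (uS G₀) hl ⟨0, hκ⟩ (fun h : Fin κ → Γ => F (∑ i, h i))]
  have h1 : ∀ h : Fin κ → Γ, (∏ i, uS G₀ (h i)) *
      ∑ x, uS G₀ x * F (∑ i, Function.update h ⟨0, hκ⟩ x i) =
      (∏ i, uS G₀ (h i)) * ∑ d, uS G₀ d * F d := by
    intro h
    by_cases hh : ∏ i, uS G₀ (h i) = 0
    · rw [hh, zero_mul, zero_mul]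
    · congr 1
      have hmem : ∀ i, h i ∈ G₀ := fun i => by
        apply uS_mem
        exact (Finset.prod_ne_zero_iff.mp hh) i (Finset.mem_univ i)
      have hy : ∑ i ∈ univ.erase (⟨0, hκ⟩ : Fin κ), h i ∈ G₀ := AddSubgroup.sum_mem _ (fun i _ => hmem i)
      rw [← uS_trans G₀ hy F]
      apply Finset.sum_congr rfl
      intro x _
      congr 2
      rw [← Finset.add_sum_erase univ _ (Finset.mem_univ (⟨0, hκ⟩ : Fin κ)), Function.update_self]
      congr 1
      apply Finset.sum_congr rfl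
      intro i hi
      rw [Function.update_of_ne (Finset.ne_of_mem_erase hi)]
  rw [Finset.sum_congr rfl (fun h _ => h1 h), ← Finset.sum_mul, sum_pi_weight (uS G₀) hl, one_mul]

/-- the law `lawN` of a subgroup is uniform -/
lemma lawN_sub (n : ℕ) (hn : 1 ≤ n) [Fintype G₀] (g : Γ) :
    lawN n (fun y : G₀ => (y : Γ)) g = uS G₀ g := by
  classical
  have hU : ∀ g : Γ, lawU (fun y : G₀ => (y : Γ)) g = uS G₀ g := by
    intro g
    rw [lawU_eq_sum]
    unfold uS
    have hc : (Fintype.card G₀ : ℝ) = (Nat.card G₀ : ℝ) := by rw [Nat.card_eq_fintype_card]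
    rw [hc]
    by_cases hg : g ∈ G₀
    · rw [if_pos hg]
      congr 1
      rw [Finset.sum_eq_single (⟨g, hg⟩ : G₀)]
      · simp
      · intro b _ hb
        rw [if_neg]
        intro hcon
        exact hb (Subtype.ext hcon)
      · intro h; exact absurd (Finset.mem_univ _) h
    · rw [if_neg hg, Finset.sum_eq_zero, zero_div]
      intro b _
      rw [if_neg]
      intro hcon
      exact hg (hcon ▸ b.2)
  have hNe : Nonempty G₀ := ⟨0⟩
  have hPN := lawN_isPW n hn (fun y : G₀ => (y : Γ))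
  have hPS := uS_isPW G₀
  have hc := uS_card_pos G₀
  have hle : ∀ g, lawN n (fun y : G₀ => (y : Γ)) g ≤ uS G₀ g := by
    intro g
    by_cases hg : g ∈ G₀
    · have h1 : lawN n (fun y : G₀ => (y : Γ)) g ≤ 1 / (Nat.card G₀ : ℝ) := by
        apply lawN_atom n hn
        intro g'
        rw [hU]
        unfold uS
        split_ifs
        · exact le_rfl
        · positivity
      unfold uS
      rw [if_pos hg]
      exact h1
    · have h1 : lawN n (fun y : G₀ => (y : Γ)) g = 0 := by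
        by_contra hcon
        obtain ⟨l, _, _, hl3⟩ := lawN_support n _ _ hcon
        apply hg
        rw [← hl3]
        apply AddSubgroup.list_sum_mem
        intro x hx
        obtain ⟨y, _, rfl⟩ := List.mem_map.mp hx
        exact y.2
      rw [h1]
      exact uS_nonneg G₀ g
  have hsum : ∑ g, (uS G₀ g - lawN n (fun y : G₀ => (y : Γ)) g) = 0 := by
    rw [Finset.sum_sub_distrib, hPS.2, hPN.2, sub_self]
  have h0 := (Finset.sum_eq_zero_iff_of_nonneg (fun g _ => sub_nonneg.mpr (hle g))).mp hsum g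
    (Finset.mem_univ g)
  linarith

end

end Pool.Agent.H16.GPR
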